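import Pool.Agent.helper48.DH.SpecY

set_option autoImplicit false

open Filter Topology MeasureTheory
open scoped commutatorElement

namespace Pool.Agent.helper90.DH

open Pool.Agent.helper64.D2

lemma yIN_cell (s : ℕ) (x t : ℝ) (ht : t ∈ cell s (ci s x)) : |t - x| ≤ 1 / 2 ^ s := by
  have h2 : (0 : ℝ) < 2 ^ s := by positivity
  have h1 : (ci s x : ℝ) ≤ 2 ^ s * x := Int.floor_le _
  have h3 : 2 ^ s * x < (ci s x : ℝ) + 1 := Int.lt_floor_add_one _
  obtain ⟨h4, h5⟩ := ht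
  rw [div_le_iff₀ h2] at h4
  rw [lt_div_iff₀ h2] at h5
  have h6 : |t - x| * 2 ^ s ≤ 1 := by
    rw [← abs_of_pos h2, ← abs_mul, abs_le]
    constructor <;> nlinarith
  rw [le_div_iff₀ h2]
  exact h6

lemma yIN_s0 (n : ℕ) (hn : 1600 ≤ n) : 256 ≤ s0n n := by
  have h1 : 4 ≤ n / 400 := by omega
  have h2 : 2 ^ 4 ≤ rn n := Nat.pow_le_pow_right (by norm_num) h1
  calc 256 = (2 ^ 4) ^ 2 := by norm_num
    _ ≤ s0n n := Nat.pow_le_pow_left h2 2

theorem yIN (hLBM : LBM_stmt) (hLEA : LEA_stmt) (hLEB : LEB_stmt) (hCAL : yCAL_stmt) (hEM : yEM_stmt)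
    (hGR : yGR_stmt) (hESC : yESC_stmt) (hZF : yZF_stmt) : YIN_stmt := by
  refine ⟨12, 1600, ?_⟩
  intro n hn G0 Z p p' hMH N0
  obtain ⟨hrep, hZ2, hZs, hp, hpp', hp', hbd⟩ := hMH
  have hs256 : 256 ≤ s0n n := yIN_s0 n hn
  set s0 := s0n n with hs0
  have hn2 : (0 : ℝ) < 2 ^ n := by positivity
  have hs2 : (0 : ℝ) < 2 ^ s0 := by positivity
  have hA : (0 : ℝ) < 5 / 2 ^ n := by positivity
  obtain ⟨hfc, hfB, hfs, hfa, hf0, hf1, hfE⟩ := hZF Z p p' (5 / 2 ^ n) (1 / 2 ^ (n + 2 * s0 + 12))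
    (1 / 2 ^ (n + s0 + 12)) hZ2 hZs (by linarith) (by linarith) hA (fun x => ⟨(hbd x).2.1, (hbd x).2.2⟩)
  set f : ℝ → ℝ := fun x => d2 Z x / (5 / 2 ^ n) with hf
  set η : ℝ := 1 / 2 ^ (2 * n + 2 * s0 + 4) with hη
  have hηpos : 0 < η := by positivity
  have hfu : UniformContinuous f := by
    have hcs : HasCompactSupport f := HasCompactSupport.intro isCompact_Icc (fun x hx => hfs x hx)
    exact hcs.uniformContinuous_of_continuous hfc
  obtain ⟨δ, hδ, hδf⟩ := Metric.uniformContinuous_iff.mp hfu η hηpos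
  obtain ⟨N1, hN1⟩ := exists_pow_lt_of_lt_one hδ (by norm_num : (1 / 2 : ℝ) < 1)
  refine ⟨max N1 (max N0 s0), le_trans (le_max_left _ _) (le_max_right _ _), ?_⟩
  intro N' hN'
  have hN1' : N1 ≤ N' := le_trans (le_max_left _ _) hN'
  have hNs : s0 ≤ N' := le_trans (le_trans (le_max_right _ _) (le_max_right _ _)) hN'
  have hNδ : 1 / (2 : ℝ) ^ N' < δ := by
    calc 1 / (2 : ℝ) ^ N' ≤ 1 / 2 ^ N1 := one_div_le_one_div_of_le (by positivity) (pow_le_pow_right₀ (by norm_num) hN1')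
      _ = (1 / 2) ^ N1 := by rw [one_div_pow]
      _ < δ := hN1
  have hosc : ∀ x x' : ℝ, |x - x'| ≤ 1 / 2 ^ N' → |f x - f x'| ≤ η := by
    intro x x' hx
    have := hδf (a := x) (b := x') (by rw [Real.dist_eq]; linarith)
    rw [Real.dist_eq] at this
    exact this.le
  have hyf : ∀ x, |Es N' f x - f x| ≤ 4 * η := by
    intro x
    exact hESC N' f η hfB x (fun t ht => hosc t x (yIN_cell N' x t ht))
  -- numbers
  have e1 : 4 * η ≤ 1 / 2 ^ (2 * n) := by
    rw [hη, ← mul_one_div, ← mul_assoc] 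
    have : (2 : ℝ) ^ (2 * n + 2 * s0 + 4) = 2 ^ (2 * n) * (2 ^ (2 * s0) * 16) := by ring
    rw [this]
    have h1 : (1 : ℝ) ≤ 2 ^ (2 * s0) := one_le_pow₀ (by norm_num)
    rw [mul_one, mul_one_div, div_le_div_iff₀ (by positivity) (by positivity)]
    have h2 : (0 : ℝ) < 2 ^ (2 * n) := by positivity
    nlinarith
  have e2 : 4 * η ≤ 1 / 2 ^ (2 * s0) / 4 := by
    have : (2 : ℝ) ^ (2 * n + 2 * s0 + 4) = 2 ^ (2 * n) * (2 ^ (2 * s0) * 16) := by ring
    rw [hη, this, mul_one_div, div_div, div_le_div_iff₀ (by positivity) (by positivity)]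
    have h1 : (1 : ℝ) ≤ 2 ^ (2 * n) := one_le_pow₀ (by norm_num)
    have h2 : (0 : ℝ) < 2 ^ (2 * s0) := by positivity
    nlinarith
  have e3 : 1 / (2 : ℝ) ^ s0 ≤ 1 / 1024 := by
    apply one_div_le_one_div_of_le (by norm_num)
    calc (1024 : ℝ) = 2 ^ 10 := by norm_num
      _ ≤ 2 ^ s0 := pow_le_pow_right₀ (by norm_num) (by omega)
  have e4 : 1 / (2 : ℝ) ^ (2 * s0) ≤ 1 / 2 ^ s0 :=
    one_div_le_one_div_of_le (by positivity) (pow_le_pow_right₀ (by norm_num) (by omega))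
  have e5 : 1 / (2 : ℝ) ^ N' ≤ 1 / 2 ^ s0 :=
    one_div_le_one_div_of_le (by positivity) (pow_le_pow_right₀ (by norm_num) hNs)
  have e6 : 0 < 1 / (2 : ℝ) ^ s0 := by positivity
  have e7 : 0 < 1 / (2 : ℝ) ^ (2 * s0) := by positivity
  have hyB : BM (Es N' f) := (hLBM.2.2.2.1 N' f hfB).1
  have hys : ∀ x, x ∉ Set.Icc (p - 1 / 2 ^ s0) (p' + 1 / 2 ^ s0) → Es N' f x = 0 := by
    intro x hx
    apply hLEB.2.2 N' f p p' hfs x
    intro hx'
    apply hx
    exact ⟨by linarith [hx'.1], by linarith [hx'.2]⟩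
  have hf45 : ∀ x, |f x| ≤ 4 / 5 := by
    intro x
    rw [hf]
    simp only
    rw [abs_div, abs_of_pos hA, div_le_iff₀ hA]
    calc |d2 Z x| ≤ 4 / 2 ^ n := (hbd x).1
      _ = 4 / 5 * (5 / 2 ^ n) := by ring
  obtain ⟨hg1, hg2, hg3⟩ := hGR N' (Es N' f) f hyB hfB (hEM.1 N' f hfB)
  have hy0 : (∫ t, Es N' f t) = 0 := by rw [hg2]; exact hf0
  have hy1 : (∫ t, t * Es N' f t) = 0 := by rw [hg3]; exact hf1
  obtain ⟨hC1, hC2, hC3, hC4, hC5, hC6⟩ := hCAL
  have hgB : BM (fun x => Es N' f x - f x) := (hLBM.1 _ _ hyB hfB).2.1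
  have hA20 : ∀ u : ℝ → ℝ, A2 u 0 = 0 := by
    intro u
    rw [A2, intervalIntegral.integral_same]
  -- antiderivatives
  have hmain : ∀ x, |∫ t in (0 : ℝ)..x, Es N' f t| ≤ 1 / 2 ^ s0 ∧ |A2 (Es N' f) x| ≤ 1 / 2 ^ (2 * s0) := by
    intro x
    rcases le_or_gt x 0 with hx | hx
    · obtain ⟨h1, h2⟩ := (hC5 _ hyB).2.2 x hx
      rw [h1, h2, abs_zero]
      exact ⟨e6.le, e7.le⟩
    rcases le_or_gt x 1 with hx1 | hx1
    · have h1 := ((hC1 _ hgB x 0).2.2.2 (4 * η) (fun t _ => hyf t))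
      have h2 := (hC3 _ _ hgB hfB x)
      have h3 : (fun t => (Es N' f t - f t) + f t) = Es N' f := by funext t; ring
      rw [h3] at h2
      have h2a : (∫ t in (0 : ℝ)..x, Es N' f t) = (∫ t in (0 : ℝ)..x, (Es N' f t - f t)) + ∫ t in (0 : ℝ)..x, f t := by
        exact h2.1
      have h2b := h2.2.1
      obtain ⟨h1a, h1b⟩ := h1
      rw [hA20, intervalIntegral.integral_same, mul_zero, sub_zero, sub_zero, sub_zero] at h1b
      rw [intervalIntegral.integral_same, sub_zero, sub_zero] at h1a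
      have h4 := (hfa x).1
      have h5 := (hfa x).2
      have h6 : |x| ≤ 1 := by rw [abs_le]; constructor <;> linarith
      have h7 : 4 * η * |x| ≤ 4 * η := by nlinarith
      have h8 : 4 * η * x ^ 2 ≤ 4 * η := by
        have : x ^ 2 ≤ 1 := by nlinarith
        nlinarith
      have h9 : |deriv Z x / (5 / 2 ^ n)| ≤ 1 / 2 ^ s0 / 2 := by
        rw [abs_div, abs_of_pos hA, div_le_iff₀ hA]
        calc |deriv Z x| ≤ 1 / 2 ^ (n + s0 + 12) := (hbd x).2.1
          _ = 1 / 2 ^ s0 * (1 / 2 ^ n) * (1 / 2 ^ 12) := by rw [pow_add, pow_add]; field_simp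
          _ ≤ 1 / 2 ^ s0 * (1 / 2 ^ n) * (5 / 2) := by
              apply mul_le_mul_of_nonneg_left (by norm_num) (by positivity)
          _ = 1 / 2 ^ s0 / 2 * (5 / 2 ^ n) := by ring
      have h10 : |Z x / (5 / 2 ^ n)| ≤ 1 / 2 ^ (2 * s0) / 2 := by
        rw [abs_div, abs_of_pos hA, div_le_iff₀ hA]
        calc |Z x| ≤ 1 / 2 ^ (n + 2 * s0 + 12) := (hbd x).2.2
          _ = 1 / 2 ^ (2 * s0) * (1 / 2 ^ n) * (1 / 2 ^ 12) := by rw [pow_add, pow_add]; field_simp
          _ ≤ 1 / 2 ^ (2 * s0) * (1 / 2 ^ n) * (5 / 2) := by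
              apply mul_le_mul_of_nonneg_left (by norm_num) (by positivity)
          _ = 1 / 2 ^ (2 * s0) / 2 * (5 / 2 ^ n) := by ring
      constructor
      · rw [h2a, h4]
        have := abs_add_le (∫ t in (0 : ℝ)..x, (Es N' f t - f t)) (deriv Z x / (5 / 2 ^ n))
        linarith
      · rw [h2b, h5]
        have := abs_add_le (A2 (fun x => Es N' f x - f x) x) (Z x / (5 / 2 ^ n))
        linarith
    · have hsub : Function.support (Es N' f) ⊆ Set.Ioc 0 x := by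
        intro t ht
        by_contra hcon
        apply ht
        apply hys
        intro ht'
        apply hcon
        exact ⟨by linarith [ht'.1], by linarith [ht'.2]⟩
      have hsub' : Function.support (fun t => t * Es N' f t) ⊆ Set.Ioc 0 x := by
        intro t ht
        apply hsub
        intro h0
        apply ht
        simp only
        rw [h0, mul_zero]
      have h1 := intervalIntegral.integral_eq_integral_of_support_subset (μ := volume) hsub
      have h2 := intervalIntegral.integral_eq_integral_of_support_subset (μ := volume) hsub'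
      have h3 := (hC1 _ hyB x 0).2.2.1
      rw [h1, hy0, h2, hy1] at h3
      rw [h3, h1, hy0]
      simp only [mul_zero, sub_zero, abs_zero]
      exact ⟨e6.le, e7.le⟩
  refine ⟨⟨hLEA.2.1 N' f, by linarith, by linarith, by linarith, hys, ?_, hy0, hy1, hmain⟩, ?_, ?_, ?_⟩
  · intro x
    have h1 := hyf x
    have h2 := hf45 x
    have h3 : Es N' f x = (Es N' f x - f x) + f x := by ring
    rw [h3]
    have := abs_add_le (Es N' f x - f x) (f x)
    linarith
  · intro x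
    exact (hyf x).trans e1
  · intro x
    rw [(hLEA.2.2.2.2.2.1 s0 N' f hfB hNs x).1]
    refine (hfE s0 x).trans ?_
    have : (8 * 2 ^ s0 * (1 / 2 ^ (n + s0 + 12)) + 12 * 4 ^ s0 * (1 / 2 ^ (n + 2 * s0 + 12))) / (5 / 2 ^ n) = (4 : ℝ) / 4096 := by
      have h4 : (4 : ℝ) ^ s0 = 2 ^ (2 * s0) := by rw [pow_mul]; norm_num
      rw [h4, pow_add, pow_add, pow_add, pow_add]
      field_simp
      norm_num
    rw [this]
    norm_num
  · intro x x' hx
    have h1 := hosc x x' hx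
    have h2 : d2 Z x - d2 Z x' = (5 / 2 ^ n) * (f x - f x') := by
      rw [hf]
      field_simp
    rw [h2, abs_mul, abs_of_pos hA, div_eq_mul_one_div (5 / (2 : ℝ) ^ n) (2 ^ (2 * n))]
    apply mul_le_mul_of_nonneg_left _ hA.le
    linarith

end Pool.Agent.helper90.DH
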