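import Pool.Agent.helper48.DH.SpecY

set_option autoImplicit false

open Filter Topology MeasureTheory
open scoped commutatorElement

namespace Pool.Agent.helper90.DH

open Pool.Agent.helper64.D2

lemma yVF_cell (s : ℕ) (x t : ℝ) (ht : t ∈ cell s (ci s x)) : |t - x| ≤ 1 / 2 ^ s := by
  have h2 : (0 : ℝ) < 2 ^ s := by positivity
  have h1 : (ci s x : ℝ) ≤ 2 ^ s * x := Int.floor_le _
  have h3 : 2 ^ s * x < (ci s x : ℝ) + 1 := Int.lt_floor_add_one _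
  obtain ⟨h4, h5⟩ := ht
  rw [div_le_iff₀ h2] at h4
  rw [lt_div_iff₀ h2] at h5
  have h6 : |t - x| * 2 ^ s ≤ 1 := by
    rw [← abs_of_pos h2, ← abs_mul, abs_le]
    constructor <;> nlinarith
  rw [le_div_iff₀ h2]
  exact h6

lemma yVF_BM0 : BM (fun _ => (0 : ℝ)) :=
  ⟨measurable_const, ⟨0, fun x => by simp⟩, fun x _ => rfl⟩

lemma yVF_sum (hLBM : LBM_stmt) (f : ℕ → ℝ → ℝ) (I : Finset ℕ) (h : ∀ i ∈ I, BM (f i)) :
    BM (fun x => ∑ i ∈ I, f i x) := by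
  classical
  induction I using Finset.induction_on with
  | empty => simpa using yVF_BM0
  | insert a I ha ih =>
    have h1 := (hLBM.1 (f a) (fun x => ∑ i ∈ I, f i x) (h a (Finset.mem_insert_self a I))
      (ih (fun i hi => h i (Finset.mem_insert_of_mem hi)))).1
    have h2 : (fun x => ∑ i ∈ insert a I, f i x) = fun x => f a x + ∑ i ∈ I, f i x := by
      funext x
      rw [Finset.sum_insert ha]
    rw [h2]
    exact h1

lemma yVF_geo2 (a b : ℕ) (hab : a ≤ b) : ∑ s ∈ Finset.Ico a b, 1 / (2 : ℝ) ^ s ≤ 2 / 2 ^ a := by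
  have : ∑ s ∈ Finset.Ico a b, 1 / (2 : ℝ) ^ s = 2 / 2 ^ a - 2 / 2 ^ b := by
    induction b, hab using Nat.le_induction with
    | base => simp
    | succ n hn ih =>
      rw [Finset.sum_Ico_succ_top hn, ih, pow_succ]
      field_simp
      ring
  rw [this]
  have : 0 ≤ 2 / (2 : ℝ) ^ b := by positivity
  linarith

lemma yVF_geo4 (a b : ℕ) (hab : a ≤ b) : ∑ s ∈ Finset.Ico a b, 1 / (4 : ℝ) ^ s ≤ 2 / 4 ^ a := by
  have : ∑ s ∈ Finset.Ico a b, 1 / (4 : ℝ) ^ s = (4 / 3) / 4 ^ a - (4 / 3) / 4 ^ b := by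
    induction b, hab using Nat.le_induction with
    | base => simp
    | succ n hn ih =>
      rw [Finset.sum_Ico_succ_top hn, ih, pow_succ]
      field_simp
      ring
  rw [this]
  have h1 : 0 ≤ (4 / 3) / (4 : ℝ) ^ b := by positivity
  have h2 : (4 / 3) / (4 : ℝ) ^ a ≤ 2 / 4 ^ a := div_le_div_of_nonneg_right (by norm_num) (by positivity)
  linarith

lemma yVF_lev (hLBM : LBM_stmt) (hLEA : LEA_stmt) (hLEB : LEB_stmt) (hTL : yTL_stmt) (hE0 : yE0_stmt)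
    (q s0 S N : ℕ) (p p' B : ℝ) (y : ℝ → ℝ) (w : ℕ → ℤ → ℝ) (hq : 1 ≤ q) (hs0 : 10 ≤ s0)
    (hY : YH N s0 p p' y) (hW : WH q s0 S B w y) (s : ℕ) (hs : s0 ≤ s) (hsS : s < S) :
    BM (fun t => w s (ci s t) * Ds s y t) ∧ ∀ x, |∫ t in (0 : ℝ)..x, w s (ci s t) * Ds s y t| ≤ 16 / q * (1 / 2 ^ s) ∧
      |A2 (fun t => w s (ci s t) * Ds s y t) x| ≤ 16 / q * (1 / 4 ^ s) ∧
      (x ∉ Set.Icc (p - 2 / 2 ^ s0) (p' + 2 / 2 ^ s0) → (∫ t in (0 : ℝ)..x, w s (ci s t) * Ds s y t) = 0 ∧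
        A2 (fun t => w s (ci s t) * Ds s y t) x = 0) ∧
      (x ∉ Set.Icc (p - 1 / 2 ^ s0) (p' + 1 / 2 ^ s0) → Ds s y x = 0) := by
  obtain ⟨hyB, hEB, -⟩ := hE0 N s0 p p' y hs0 hY
  have hY' := hY
  obtain ⟨hPA, h29, hpp', h7, hsupp, hbd, hm0, hm1, hant⟩ := hY'
  have hD : BM (Ds s y) := (hLBM.2.2.2.1 s y hyB).2.1
  have hEs : BM (Es s y) := (hLBM.2.2.2.1 s y hyB).1
  have hEs1 : BM (Es (s + 1) y) := (hLBM.2.2.2.1 (s + 1) y hyB).1
  have hz : ∀ x, Es s (Ds s y) x = 0 := by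
    intro x
    have h1 := (hLEA.2.2.2.1 s (Es (s + 1) y) (Es s y) hEs1 hEs x).2
    rw [(hLEA.2.2.2.2.2.1 s (s + 1) y hyB (Nat.le_succ s) x).1, (hLEA.2.2.2.2.2.1 s s y hyB le_rfl x).1, sub_self] at h1
    exact h1
  have hD8 : ∀ x, |Ds s y x| ≤ 8 := by
    intro x
    have h1 := hLEB.2.1 s y 1 hyB hbd x
    have h2 := hLEB.2.1 (s + 1) y 1 hyB hbd x
    have h3 := abs_sub (Es (s + 1) y x) (Es s y x)
    have h4 : Ds s y x = Es (s + 1) y x - Es s y x := rfl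
    rw [h4]
    linarith
  have e1 : 1 / (2 : ℝ) ^ s ≤ 1 / 2 ^ s0 :=
    one_div_le_one_div_of_le (by positivity) (pow_le_pow_right₀ (by norm_num) hs)
  have e2 : 1 / (2 : ℝ) ^ (s + 1) ≤ 1 / 2 ^ s0 :=
    one_div_le_one_div_of_le (by positivity) (pow_le_pow_right₀ (by norm_num) (by omega))
  have hDz : ∀ x, x ∉ Set.Icc (p - 1 / 2 ^ s0) (p' + 1 / 2 ^ s0) → Ds s y x = 0 := by
    intro x hx
    have h4 : Ds s y x = Es (s + 1) y x - Es s y x := rfl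
    rw [h4, hLEB.2.2 (s + 1) y p p' hsupp x, hLEB.2.2 s y p p' hsupp x, sub_self]
    · intro hx'
      apply hx
      exact ⟨by linarith [hx'.1], by linarith [hx'.2]⟩
    · intro hx'
      apply hx
      exact ⟨by linarith [hx'.1], by linarith [hx'.2]⟩
  have hq' : (0 : ℝ) < q := by exact_mod_cast hq
  obtain ⟨h1, h2⟩ := hTL s (Ds s y) (w s) 8 (2 / q) hD hz hD8 (by positivity) (fun k hk => hW.1 s k hs hsS hk)
  refine ⟨h1, fun x => ⟨?_, ?_, ?_, hDz x⟩⟩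
  · refine (h2 x).1.trans (le_of_eq ?_)
    ring
  · refine (h2 x).2.1.trans (le_of_eq ?_)
    ring
  · intro hx
    apply (h2 x).2.2
    intro t ht
    apply hDz
    intro ht'
    apply hx
    have h3 := abs_le.mp (yVF_cell s x t ht)
    have h4 : 2 / (2 : ℝ) ^ s0 = 1 / 2 ^ s0 + 1 / 2 ^ s0 := by ring
    rw [h4]
    exact ⟨by linarith [ht'.1, h3.1, h3.2], by linarith [ht'.2, h3.1, h3.2]⟩

theorem yVF (hLBM : LBM_stmt) (hLEA : LEA_stmt) (hLEB : LEB_stmt) (hCAL : yCAL_stmt) (hTL : yTL_stmt)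
    (hE0 : yE0_stmt) : yVF_stmt := by
  intro q s0 S N p p' B y w hq hs0 hS hN hY hW
  have hq' : (0 : ℝ) < q := by exact_mod_cast hq
  obtain ⟨hyB, hEB, hE⟩ := hE0 N s0 p p' y hs0 hY
  have hY' := hY
  obtain ⟨hPA, h29, hpp', h7, hsupp, hbd, hm0, hm1, hant⟩ := hY'
  obtain ⟨hC1, hC2, hC3, hC4, hC5, hC6⟩ := hCAL
  have hlev := fun s => yVF_lev hLBM hLEA hLEB hTL hE0 q s0 S N p p' B y w hq hs0 hY hW s
  set T : ℕ → ℝ → ℝ := fun s t => w s (ci s t) * Ds s y t with hT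
  have hTB : ∀ s ∈ Finset.Ico s0 S, BM (T s) := fun s hs =>
    (hlev s (Finset.mem_Ico.mp hs).1 (Finset.mem_Ico.mp hs).2).1
  have hSB : BM (fun t => ∑ s ∈ Finset.Ico s0 S, T s t) := yVF_sum hLBM T _ hTB
  have hMB : BM (fun t => (1 / (q : ℝ)) * Es s0 y t) := (hLBM.2.1 (1 / (q : ℝ)) _ hEB).1
  have hvf : vf q s0 S w y = fun t => (1 / (q : ℝ)) * Es s0 y t + ∑ s ∈ Finset.Ico s0 S, T s t := by
    funext t
    rw [vf, hT]
    ring
  have hVB : BM (vf q s0 S w y) := by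
    rw [hvf]
    exact (hLBM.1 _ _ hMB hSB).1
  have hI : ∀ x, (∫ t in (0 : ℝ)..x, vf q s0 S w y t) = (1 / (q : ℝ)) * (∫ t in (0 : ℝ)..x, Es s0 y t) +
      ∑ s ∈ Finset.Ico s0 S, ∫ t in (0 : ℝ)..x, T s t := by
    intro x
    rw [hvf]
    simp only
    rw [(hC3 _ _ hMB hSB x).1, (hC4 _ _ x).1, (hC2 _ T hTB x).1]
  have hJ : ∀ x, A2 (vf q s0 S w y) x = (1 / (q : ℝ)) * A2 (Es s0 y) x + ∑ s ∈ Finset.Ico s0 S, A2 (T s) x := by
    intro x
    rw [hvf, (hC3 _ _ hMB hSB x).2.1, (hC4 _ _ x).2, (hC2 _ T hTB x).2]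
  refine ⟨⟨hVB, ?_, ?_⟩, ?_⟩
  · intro x hx
    have h1 : Es s0 y x = 0 := hLEB.2.2 s0 y p p' hsupp x hx
    rw [hvf]
    simp only
    rw [h1, mul_zero, zero_add]
    apply Finset.sum_eq_zero
    intro s hs
    rw [hT]
    simp only
    rw [((hlev s (Finset.mem_Ico.mp hs).1 (Finset.mem_Ico.mp hs).2).2 x).2.2.2 hx, mul_zero]
  · intro x
    refine ⟨?_, ?_, ?_⟩
    · rw [hI x]
      have h1 : |(1 / (q : ℝ)) * (∫ t in (0 : ℝ)..x, Es s0 y t)| ≤ 1 / q * (5 / 2 ^ s0) := by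
        rw [abs_mul, abs_of_pos (by positivity : (0 : ℝ) < 1 / q)]
        exact mul_le_mul_of_nonneg_left (hE x).1 (by positivity)
      have h2 : |∑ s ∈ Finset.Ico s0 S, ∫ t in (0 : ℝ)..x, T s t| ≤ (16 : ℝ) / q * (2 / (2 : ℝ) ^ s0) := by
        refine (Finset.abs_sum_le_sum_abs _ _).trans ?_
        calc ∑ s ∈ Finset.Ico s0 S, |∫ t in (0 : ℝ)..x, T s t| ≤ ∑ s ∈ Finset.Ico s0 S, (16 : ℝ) / q * (1 / (2 : ℝ) ^ s) :=
              Finset.sum_le_sum (fun s hs => ((hlev s (Finset.mem_Ico.mp hs).1 (Finset.mem_Ico.mp hs).2).2 x).1)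
          _ = (16 : ℝ) / q * ∑ s ∈ Finset.Ico s0 S, 1 / (2 : ℝ) ^ s := by rw [Finset.mul_sum]
          _ ≤ (16 : ℝ) / q * (2 / (2 : ℝ) ^ s0) := mul_le_mul_of_nonneg_left (yVF_geo2 s0 S hS) (by positivity)
      have h3 : (37 : ℝ) / (q * 2 ^ s0) = 1 / q * (5 / 2 ^ s0) + (16 : ℝ) / q * (2 / (2 : ℝ) ^ s0) := by
        field_simp
        norm_num
      rw [h3]
      exact (abs_add_le _ _).trans (add_le_add h1 h2)
    · rw [hJ x]
      have h1 : |(1 / (q : ℝ)) * A2 (Es s0 y) x| ≤ 1 / q * (6 / 4 ^ s0) := by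
        rw [abs_mul, abs_of_pos (by positivity : (0 : ℝ) < 1 / q)]
        exact mul_le_mul_of_nonneg_left (hE x).2.1 (by positivity)
      have h2 : |∑ s ∈ Finset.Ico s0 S, A2 (T s) x| ≤ (16 : ℝ) / q * (2 / (4 : ℝ) ^ s0) := by
        refine (Finset.abs_sum_le_sum_abs _ _).trans ?_
        calc ∑ s ∈ Finset.Ico s0 S, |A2 (T s) x| ≤ ∑ s ∈ Finset.Ico s0 S, (16 : ℝ) / q * (1 / (4 : ℝ) ^ s) :=
              Finset.sum_le_sum (fun s hs => ((hlev s (Finset.mem_Ico.mp hs).1 (Finset.mem_Ico.mp hs).2).2 x).2.1)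
          _ = (16 : ℝ) / q * ∑ s ∈ Finset.Ico s0 S, 1 / (4 : ℝ) ^ s := by rw [Finset.mul_sum]
          _ ≤ (16 : ℝ) / q * (2 / (4 : ℝ) ^ s0) := mul_le_mul_of_nonneg_left (yVF_geo4 s0 S hS) (by positivity)
      have h3 : (38 : ℝ) / (q * 4 ^ s0) = 1 / q * (6 / 4 ^ s0) + (16 : ℝ) / q * (2 / (4 : ℝ) ^ s0) := by
        field_simp
        norm_num
      rw [h3]
      exact (abs_add_le _ _).trans (add_le_add h1 h2)
    · intro hx
      obtain ⟨h1, h2⟩ := (hE x).2.2 hx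
      rw [hI x, hJ x, h1, h2, mul_zero, zero_add, zero_add]
      constructor
      · exact Finset.sum_eq_zero (fun s hs =>
          (((hlev s (Finset.mem_Ico.mp hs).1 (Finset.mem_Ico.mp hs).2).2 x).2.2.1 hx).1)
      · exact Finset.sum_eq_zero (fun s hs =>
          (((hlev s (Finset.mem_Ico.mp hs).1 (Finset.mem_Ico.mp hs).2).2 x).2.2.1 hx).2)
  · intro S' w' hSS' hS'N hW' hww' x
    have hlev' := fun s => yVF_lev hLBM hLEA hLEB hTL hE0 q s0 S' N p p' B y w' hq hs0 hY hW' s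
    set T' : ℕ → ℝ → ℝ := fun s t => w' s (ci s t) * Ds s y t with hT'
    have hT'B : ∀ s ∈ Finset.Ico S S', BM (T' s) := fun s hs =>
      (hlev' s (hS.trans (Finset.mem_Ico.mp hs).1) (Finset.mem_Ico.mp hs).2).1
    have hv : vf q s0 S' w' y = fun t => vf q s0 S w y t + ∑ s ∈ Finset.Ico S S', T' s t := by
      funext t
      rw [vf, vf, ← Finset.sum_Ico_consecutive _ hS hSS', ← add_assoc]
      congr 2
      apply Finset.sum_congr rfl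
      intro s hs
      rw [hww' s (Finset.mem_Ico.mp hs).2]
    rw [hv, (hC3 _ _ hVB (yVF_sum hLBM T' _ hT'B) x).2.1, (hC2 _ T' hT'B x).2, add_sub_cancel_left]
    refine (Finset.abs_sum_le_sum_abs _ _).trans ?_
    calc ∑ s ∈ Finset.Ico S S', |A2 (T' s) x| ≤ ∑ s ∈ Finset.Ico S S', (16 : ℝ) / q * (1 / (4 : ℝ) ^ s) :=
          Finset.sum_le_sum (fun s hs => ((hlev' s (hS.trans (Finset.mem_Ico.mp hs).1) (Finset.mem_Ico.mp hs).2).2 x).2.1)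
      _ = (16 : ℝ) / q * ∑ s ∈ Finset.Ico S S', 1 / (4 : ℝ) ^ s := by rw [Finset.mul_sum]
      _ ≤ (16 : ℝ) / q * (2 / (4 : ℝ) ^ S) := mul_le_mul_of_nonneg_left (yVF_geo4 S S' hSS') (by positivity)
      _ = 32 / (q * 4 ^ S) := by
        field_simp
        norm_num

end Pool.Agent.helper90.DH
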