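import Pool.Agent.helper48.DH.yGEN
import Pool.Agent.helper48.DH.yIN
import Pool.Agent.helper48.DH.yVF
import Pool.Agent.helper18.DH.yCAL
import Pool.Agent.helper4.DH.yEM
import Pool.Agent.helper63.DH.yGR
import Pool.Agent.helper83.DH.yTL
import Pool.Agent.helper29.DH.yE0
import Pool.Agent.helper16.DH.yMOL
import Pool.Agent.helper51.DH.yMOB
import Pool.Agent.helper38.DH.yMOC
import Pool.Agent.helper59.DH.yESC
import Pool.Agent.helper40.DH.yZF
import Pool.Agent.helper46.DH.LBM
import Pool.Agent.helper63.DH.LEA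
import Pool.Agent.helper83.DH.LEB

set_option autoImplicit false

namespace Pool.Agent.helper90.DH

theorem AllY_MOC : yMOC_stmt := yMOC yCAL yMOB

theorem AllY_TL : yTL_stmt := yTL yCAL yEM yGR

theorem AllY_E0 : yE0_stmt := yE0 LBM LEB yCAL yEM yGR

theorem AllY_VF : yVF_stmt := yVF LBM LEA LEB yCAL AllY_TL AllY_E0

/-- Part Y: the flow functions. -/
theorem AllY_YGEN : YGEN_stmt := yGEN yCAL AllY_VF yMOL yMOB AllY_MOC

/-- Part Y: the function `y`. -/
theorem AllY_YIN : YIN_stmt := yIN LBM LEA LEB yCAL yEM yGR yESC yZF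

end Pool.Agent.helper90.DH
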