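import Pool.Agent.helper89.D2.All

/-!
# Project d2: (MP_5823cb_al, `Diff^2_+(S^1)` is simple): the circle part (helper48)

`CORE2_stmt` is the core theorem without a condition on the modulus of continuity. `FIN2`: it implies the simplicity of the group.
-/

set_option autoImplicit false

open Filter Topology
open scoped commutatorElement

namespace Pool.Agent.helper48.DH

open Pool.Agent.helper64.D2

/-- **CORE2**. -/
def CORE2_stmt : Prop := ∃ e0 : ℝ, 0 < e0 ∧ ∀ (f : DD) (X : ℝ → ℝ), Rep f X → ContDiff ℝ 2 X →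
  (∀ x, x ∉ Set.Icc (34 / 100 : ℝ) (56 / 100) → X x = 0) → (∀ x, |d2 X x| ≤ e0) → Th (Pi.mulSingle 2 f) ∈ ⁅G2, G2⁆

/-- **CHN** (helper81): the same for the group `K0` of sequences. -/
def CHN_stmt : Prop := ∃ e0 : ℝ, 0 < e0 ∧ ∀ (f : DD) (X : ℝ → ℝ), Rep f X → ContDiff ℝ 2 X →
  (∀ x, x ∉ Set.Icc (34 / 100 : ℝ) (56 / 100) → X x = 0) → (∀ x, |d2 X x| ≤ e0) → Pi.mulSingle 2 f ∈ K0

theorem CORE2_of_CHN (h : CHN_stmt) (hKTH : KTH_stmt) : CORE2_stmt := by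
  obtain ⟨e0, he0, H⟩ := h
  exact ⟨e0, he0, fun f X h1 h2 h3 h4 => hKTH.2 _ (H f X h1 h2 h3 h4)⟩

/-- Every element of `G2` is a product of commutators. -/
theorem COM2 (hCORE : CORE2_stmt) (hFRG : FRG_stmt) (hCHT : CHT_stmt) (hGGB : GGB_stmt) : ∀ g ∈ G2, g ∈ ⁅G2, G2⁆ := by
  intro g hg
  obtain ⟨e0, he0, hC⟩ := hCORE
  obtain ⟨ε1, hε1, hT⟩ := hCHT e0 he0
  obtain ⟨l, hl, hl2⟩ := hFRG g hg ε1 hε1
  obtain ⟨hext, hmul, hone, hinv, hper, hmono, htr, hcomm⟩ := hGGB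
  have key : ∀ h ∈ l, h ∈ (⁅G2, G2⁆ : Subgroup CircleDeg1Liftˣ) := by
    intro h hh
    obtain ⟨hG, ⟨α, hα⟩, hd, -⟩ := hl2 h hh
    obtain ⟨s, hs⟩ : ∃ s : ℝ, s = 35 / 100 - α := ⟨_, rfl⟩
    obtain ⟨t, ht⟩ : ∃ t : CircleDeg1Liftˣ, t = CircleDeg1Lift.translate (Multiplicative.ofAdd s) := ⟨_, rfl⟩
    have htG : t ∈ G2 := by rw [ht]; exact (htr s).1
    have htx : ∀ x, gg t x = x + s := by rw [ht]; exact (htr s).2
    have htix : ∀ x, gg t⁻¹ x = x - s := by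
      intro x
      have h1 := (hinv t x).2
      rw [htx] at h1
      linarith
    have hk : ∀ x, gg (t * h * t⁻¹) x = gg h (x - s) + s := by
      intro x
      rw [hmul, hmul, htix, htx]
    have hkG : t * h * t⁻¹ ∈ G2 := G2.mul_mem (G2.mul_mem htG hG) (G2.inv_mem htG)
    have hkS : SIn (t * h * t⁻¹) (35 / 100) (37 / 100) := by
      intro x hx
      rw [hk]
      have h1 : gg h (x - s) = x - s := by
        apply hα
        intro n hn
        apply hx n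
        rw [Set.mem_Icc] at hn ⊢
        constructor
        · linarith [hn.1]
        · linarith [hn.2]
      rw [h1]; ring
    have hkd2 : ∀ x, d2 (gg (t * h * t⁻¹)) x = d2 (gg h) (x - s) := fun x => COM_d2 (gg h) (gg (t * h * t⁻¹)) s hk x
    have hkd : ∀ x, |d2 (gg (t * h * t⁻¹)) x| ≤ ε1 := by
      intro x
      rw [hkd2]; exact hd _
    obtain ⟨f, X, hRep, hCX, hX0, hXe, -, hTh⟩ := hT (t * h * t⁻¹) hkG hkS hkd
    have h1 := hC f X hRep hCX hX0 hXe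
    rw [hTh] at h1
    have h2 := COM_conj G2 t⁻¹ (G2.inv_mem htG) _ h1
    have e : t⁻¹ * (t * h * t⁻¹) * t⁻¹⁻¹ = h := by group
    rw [e] at h2
    exact h2
  rw [← hl]
  exact Subgroup.list_prod_mem _ key

/-- The statement `S01539`. -/
def S_stmt : Prop :=
    (∃ f : CircleDeg1Liftˣ,
        ContDiff ℝ 2 ⇑(f : CircleDeg1Lift) ∧
        ContDiff ℝ 2 ⇑((f⁻¹ : CircleDeg1Liftˣ) : CircleDeg1Lift) ∧
        ∀ n : ℤ, f ≠ CircleDeg1Lift.translate (Multiplicative.ofAdd (n : ℝ))) ∧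
    ∀ f g : CircleDeg1Liftˣ,
      ContDiff ℝ 2 ⇑(f : CircleDeg1Lift) →
      ContDiff ℝ 2 ⇑((f⁻¹ : CircleDeg1Liftˣ) : CircleDeg1Lift) →
      ContDiff ℝ 2 ⇑(g : CircleDeg1Lift) →
      ContDiff ℝ 2 ⇑((g⁻¹ : CircleDeg1Liftˣ) : CircleDeg1Lift) →
      (∀ n : ℤ, f ≠ CircleDeg1Lift.translate (Multiplicative.ofAdd (n : ℝ))) →
      g ∈ Subgroup.closure
        ({x : CircleDeg1Liftˣ | ∃ h : CircleDeg1Liftˣ,
            ContDiff ℝ 2 ⇑(h : CircleDeg1Lift) ∧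
            ContDiff ℝ 2 ⇑((h⁻¹ : CircleDeg1Liftˣ) : CircleDeg1Lift) ∧
            x = h * f * h⁻¹} ∪
          Set.range (fun n : ℤ => CircleDeg1Lift.translate (Multiplicative.ofAdd (n : ℝ))))

theorem FIN2 (hCORE : CORE2_stmt) (hFRG : FRG_stmt) (hCHT : CHT_stmt) (hGGB : GGB_stmt) (hNR4 : NR4_stmt) : S_stmt := by
  refine ⟨?_, ?_⟩
  · obtain ⟨hext, hmul, hone, hinv, hper, hmono, htr, hcomm⟩ := hGGB
    have h1 := htr (1 / 2)
    refine ⟨CircleDeg1Lift.translate (Multiplicative.ofAdd (1 / 2 : ℝ)), h1.1.1, h1.1.2, ?_⟩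
    intro n hn
    have h2 := h1.2 0
    have h3 := (htr (n : ℝ)).2 0
    rw [hn, h3] at h2
    have h4 : (n : ℝ) = 1 / 2 := by linarith
    have h5 : ((2 * n : ℤ) : ℝ) = ((1 : ℤ) : ℝ) := by push_cast; linarith
    have h6 : (2 * n : ℤ) = 1 := by exact_mod_cast h5
    omega
  · intro f g hf1 hf2 hg1 hg2 hf
    have hg : g ∈ G2 := ⟨hg1, hg2⟩
    have hfG : f ∈ G2 := ⟨hf1, hf2⟩
    exact hNR4 f hfG hf (COM2 hCORE hFRG hCHT hGGB g hg)

/-- All D2 modules needed by the circle part. -/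
theorem FIN3 (hCORE : CORE2_stmt) : S_stmt := by
  have hBAS : BAS_stmt := BAS
  have hDIF : DIF_stmt := DIF
  have hGGB : GGB_stmt := GGB
  have hMKL : MKL_stmt := MKL
  have hMLA : MLA_stmt := MLA
  have hNCB : NCB_stmt := NCB hGGB
  have hNR1 : NR1_stmt := NR1 hNCB hGGB
  have hNR2 : NR2_stmt := NR2 hGGB
  have hNR3 : NR3_stmt := NR3 hMKL
  have hPUN : PUN_stmt := PUN
  have hCHA : CHA_stmt := CHA hBAS hMLA
  have hCHT : CHT_stmt := CHT hGGB hCHA hDIF hBAS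
  have hGDB : GDB_stmt := GDB hGGB
  have hPIE : PIE_stmt := PIE hGGB hGDB hMLA
  have hFRG : FRG_stmt := FRG hGGB hMKL hGDB hMLA hPIE hPUN
  have hNR4 : NR4_stmt := NR4 hNR1 hNR2 hNR3 hNCB hFRG hGGB
  exact FIN2 hCORE hFRG hCHT hGGB hNR4

/-- From the chain statement. -/
theorem FIN4 (hCHN : CHN_stmt) : S_stmt := by
  have hSZC : SZC_stmt := SZC
  have hSM2 : SM2_stmt := SM2
  have hTTT : TTT_stmt := TTT hSM2
  have hADM : ADM_stmt := ADM hSZC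
  have hSM1 : SM1_stmt := SM1 hSZC
  have hKTH : KTH_stmt := KTH hADM hSM1 hSM2 hTTT
  exact FIN3 (CORE2_of_CHN hCHN hKTH)

end Pool.Agent.helper48.DH
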