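import Pool.Agent.helper63.DH.LEA

/-! # d2:LEP (MP_5823cb_al): `Es s` is the orthogonal projection -/

set_option autoImplicit false

open Filter Topology MeasureTheory
open scoped commutatorElement

namespace Pool.Agent.helper90.DH

open Pool.Agent.helper64.D2

lemma LEP_cell (s : ℕ) (k : ℤ) (f g : ℝ → ℝ) (hg : BM g) :
    (∫ t in cell s k, Es s f t * g t) = 2 ^ s * (∫ t in cell s k, f t) * (∫ t in cell s k, g t) +
      12 * 2 ^ (3 * s) * (∫ t in cell s k, (t - ((k : ℝ) + 1 / 2) / 2 ^ s) * f t) *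
        (∫ t in cell s k, (t - ((k : ℝ) + 1 / 2) / 2 ^ s) * g t) := by
  set m : ℝ := ((k : ℝ) + 1 / 2) / 2 ^ s with hm
  obtain ⟨I, hI⟩ : ∃ I, I = ∫ t in cell s k, f t := ⟨_, rfl⟩
  obtain ⟨J, hJ⟩ : ∃ J, J = ∫ t in cell s k, (t - m) * f t := ⟨_, rfl⟩
  have hon : ∀ t ∈ cell s k, Es s f t * g t = (2 ^ s * I) * g t + (12 * 2 ^ (3 * s) * J) * ((t - m) * g t) := by
    intro t ht
    rw [LEA_on s k f t ht, ← hI, ← hm, ← hJ]
    ring
  rw [setIntegral_congr_fun (LEA_meas s k) hon, integral_add, integral_const_mul, integral_const_mul, ← hI, ← hJ]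
  · exact (LEA_BMint g hg m s k).1.const_mul _
  · exact (LEA_BMint g hg m s k).2.const_mul _

lemma LEP_adj (hLBM : LBM_stmt) (hLCE : LCE_stmt) (s : ℕ) (f g : ℝ → ℝ) (hf : BM f) (hg : BM g) :
    ∫ x, Es s f x * g x = ∫ x, f x * Es s g x := by
  have hEf : BM (Es s f) := (hLBM.2.2.2.1 s f hf).1
  have hEg : BM (Es s g) := (hLBM.2.2.2.1 s g hg).1
  have h1 : BM (fun x => Es s f x * g x) := (hLBM.1 _ _ hEf hg).2.2
  have h2 : BM (fun x => f x * Es s g x) := (hLBM.1 _ _ hf hEg).2.2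
  have hk : ∀ k : ℤ, (∫ t in cell s k, Es s f t * g t) = ∫ t in cell s k, f t * Es s g t := by
    intro k
    have h3 : (∫ t in cell s k, f t * Es s g t) = ∫ t in cell s k, Es s g t * f t := by
      congr 1
      funext t
      ring
    rw [h3, LEP_cell s k f g hg, LEP_cell s k g f hf]
    ring
  apply le_antisymm
  · exact hLCE.1 s _ _ h1 h2 (fun k => (hk k).le)
  · exact hLCE.1 s _ _ h2 h1 (fun k => (hk k).ge)

lemma LEP_pyt (hLBM : LBM_stmt) (hLEA : LEA_stmt) (hLCE : LCE_stmt) (s : ℕ) (f : ℝ → ℝ) (hf : BM f) :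
    nsq f = nsq (Es s f) + nsq (fun x => f x - Es s f x) := by
  have hEf : BM (Es s f) := (hLBM.2.2.2.1 s f hf).1
  have hff : Integrable (fun x => f x * f x) := ((hLBM.2.1 0 _ (hLBM.1 _ _ hf hf).2.2).2.2)
  have hfE : Integrable (fun x => f x * Es s f x) := ((hLBM.2.1 0 _ (hLBM.1 _ _ hf hEf).2.2).2.2)
  have hEE : Integrable (fun x => Es s f x * Es s f x) := ((hLBM.2.1 0 _ (hLBM.1 _ _ hEf hEf).2.2).2.2)
  have h1 := LEP_adj hLBM hLCE s f (Es s f) hf hEf
  have h2 : (fun x => f x * Es s (Es s f) x) = fun x => f x * Es s f x := by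
    funext x
    rw [(hLEA.2.2.2.2.2.1 s s f hf le_rfl x).1]
  rw [h2] at h1
  have e1 : nsq f = ∫ x, f x * f x := by
    unfold nsq
    congr 1
    funext x
    ring
  have e2 : nsq (Es s f) = ∫ x, Es s f x * Es s f x := by
    unfold nsq
    congr 1
    funext x
    ring
  have e3 : nsq (fun x => f x - Es s f x) = (∫ x, f x * f x) - 2 * (∫ x, f x * Es s f x) + ∫ x, Es s f x * Es s f x := by
    unfold nsq
    have : (fun x => (f x - Es s f x) ^ 2) = fun x => (f x * f x - 2 * (f x * Es s f x)) + Es s f x * Es s f x := by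
      funext x
      ring
    have h4 : Integrable (fun x => f x * f x - 2 * (f x * Es s f x)) := hff.sub (hfE.const_mul 2)
    rw [this, integral_add h4 hEE, integral_sub hff (hfE.const_mul 2), integral_const_mul]
  rw [e1, e2, e3, h1]
  ring

theorem LEP (hLBM : LBM_stmt) (hLEA : LEA_stmt) (hLCE : LCE_stmt) : LEP_stmt := by
  refine ⟨LEP_adj hLBM hLCE, LEP_pyt hLBM hLEA hLCE, ?_⟩
  intro s f g hf hg hPA
  have hh : BM (fun x => f x - g x) := (hLBM.1 _ _ hf hg).2.1
  have h1 := LEP_pyt hLBM hLEA hLCE s _ hh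
  have h2 : (fun x => (f x - g x) - Es s (fun z => f z - g z) x) = fun x => f x - Es s f x := by
    funext x
    rw [(hLEA.2.2.2.1 s f g hf hg x).2, hLEA.2.2.1 s g hPA x]
    ring
  rw [h1, h2]
  have h3 : 0 ≤ nsq (Es s (fun x => f x - g x)) := integral_nonneg (fun x => sq_nonneg _)
  linarith

end Pool.Agent.helper90.DH
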