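import Pool.Agent.helper90.DH.SDefs
import Pool.Agent.helper57.DH.SpecL

/-!
# Project d2: (MP_5823cb_al), part Y (flow functions, the function `y`): spec of helper48

Rules: module `XX` is `theorem XX (hYY : YY_stmt) … : XX_stmt` in the file `Pool/Agent/<seat>/DH/XX.lean`, first line `import Pool.Agent.helper48.DH.SpecY`, then `set_option autoImplicit false`,
`open Filter Topology MeasureTheory`, `open scoped commutatorElement`, `namespace Pool.Agent.helper90.DH`, `open Pool.Agent.helper64.D2`. Auxiliary lemmas are prefixed `XX_`. Hypotheses = the statements named under uses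
(you may use fewer, not more). No `sorry`, no double quotes, no `#` commands, no `native_decide`, no `axiom`, no `convert`.
`BM`, `LBM_stmt`, `LEA_stmt`, `LCE_stmt`, `LEB_stmt` are in `Pool.Agent.helper57.DH.SpecL` (imported here). `cell s k = [k/2^s,(k+1)/2^s)`; `x ∈ cell s k ↔ ci s x = k`.
-/

set_option autoImplicit false

open Filter Topology MeasureTheory
open scoped commutatorElement

namespace Pool.Agent.helper90.DH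

open Pool.Agent.helper64.D2

/-- **yCAL** (short/medium; uses nothing). Calculus of the antiderivatives from `0`.
Proof. `BM` functions are interval integrable on every interval (bounded, measurable). (1) `intervalIntegral.integral_interval_sub_left`. (2) `A2 f x - A2 f x0 - (x-x0) ∫_0^x0 f = ∫_0^x (x-t) f - ∫_0^x0 (x-t) f = ∫_x0^x (x-t) f`. (3) linearity. (4), (5): `norm_integral_le_of_norm_le_const` with (1), (2), `|x-t| ≤ |x-x0|`.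
(6) linearity. (7) Lipschitz by (4), (5). (8) `A2 g x = x ∫_0^x g - ∫_0^x t g(t) dt` is differentiable (`intervalIntegral.integral_hasDerivAt_right`, `Continuous.deriv_integral`) with derivative `∫_0^x g + x g x - x g x`, so `deriv (A2 g) = fun x => ∫_0^x g`, whose derivative is the continuous function `g`;
`contDiff_succ_iff_deriv`/`contDiff_one_iff_deriv`; `d2 f = deriv (deriv f)`. -/
def yCAL_stmt : Prop :=
  (∀ f : ℝ → ℝ, BM f → ∀ x x0 : ℝ,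
    ((∫ t in (0 : ℝ)..x, f t) - (∫ t in (0 : ℝ)..x0, f t) = ∫ t in x0..x, f t) ∧
    (A2 f x = A2 f x0 + (x - x0) * (∫ t in (0 : ℝ)..x0, f t) + ∫ t in x0..x, (x - t) * f t) ∧
    (A2 f x = x * (∫ t in (0 : ℝ)..x, f t) - ∫ t in (0 : ℝ)..x, t * f t) ∧
    (∀ C : ℝ, (∀ t ∈ Set.uIcc x0 x, |f t| ≤ C) → |(∫ t in (0 : ℝ)..x, f t) - (∫ t in (0 : ℝ)..x0, f t)| ≤ C * |x - x0| ∧
      |A2 f x - A2 f x0 - (x - x0) * (∫ t in (0 : ℝ)..x0, f t)| ≤ C * (x - x0) ^ 2)) ∧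
  (∀ (I : Finset ℕ) (f : ℕ → ℝ → ℝ), (∀ i ∈ I, BM (f i)) → ∀ x, (∫ t in (0 : ℝ)..x, ∑ i ∈ I, f i t) = ∑ i ∈ I, ∫ t in (0 : ℝ)..x, f i t ∧
    A2 (fun t => ∑ i ∈ I, f i t) x = ∑ i ∈ I, A2 (f i) x) ∧
  (∀ (f g : ℝ → ℝ), BM f → BM g → ∀ x, (∫ t in (0 : ℝ)..x, (f t + g t)) = (∫ t in (0 : ℝ)..x, f t) + (∫ t in (0 : ℝ)..x, g t) ∧
    A2 (fun t => f t + g t) x = A2 f x + A2 g x ∧ A2 (fun t => f t - g t) x = A2 f x - A2 g x) ∧
  (∀ (a : ℝ) (f : ℝ → ℝ) (x : ℝ), (∫ t in (0 : ℝ)..x, a * f t) = a * (∫ t in (0 : ℝ)..x, f t) ∧ A2 (fun t => a * f t) x = a * A2 f x) ∧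
  (∀ f : ℝ → ℝ, BM f → Continuous (fun x => ∫ t in (0 : ℝ)..x, f t) ∧ Continuous (A2 f) ∧ ∀ x ≤ 0, (∫ t in (0 : ℝ)..x, f t) = 0 ∧ A2 f x = 0) ∧
  ∀ g : ℝ → ℝ, Continuous g → ContDiff ℝ 2 (A2 g) ∧ (∀ x, deriv (A2 g) x = ∫ t in (0 : ℝ)..x, g t) ∧ ∀ x, d2 (A2 g) x = g x

/-- **yEM** (short/medium; uses nothing). The moments of `Es s f` on the cells.
Proof. On the cell `X` number `k` with centre `m = (k+1/2)/2^s`: `ci s t = k`, `mid s t = m`, `Es s f t = 2^s I0 + 12·8^s (t-m) I1`, `I0 = ∫_X f`, `I1 = ∫_X (t-m) f`; `∫_X 1 = 2^-s`, `∫_X (t-m) = 0`, `∫_X (t-m)^2 = 8^-s/12` (turn the set integrals into interval integrals: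
`integral_Ico_eq_integral_Ioo`, `intervalIntegral.integral_of_le`, `integral_Ioc_eq_integral_Ioo`). So `∫_X Es = I0`, `∫_X (t-m) Es = I1`, `∫_X t Es = I1 + m I0 = ∫_X t f`. Last line: if `Es s f = 0` everywhere then the left sides are `0`. -/
def yEM_stmt : Prop :=
  (∀ (s : ℕ) (f : ℝ → ℝ), BM f → ∀ k : ℤ, ((∫ t in cell s k, Es s f t) = ∫ t in cell s k, f t) ∧ (∫ t in cell s k, t * Es s f t) = ∫ t in cell s k, t * f t) ∧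
  ∀ (s : ℕ) (f : ℝ → ℝ), BM f → (∀ x, Es s f x = 0) → ∀ k : ℤ, (∫ t in cell s k, f t) = 0 ∧ (∫ t in cell s k, t * f t) = 0

/-- **yGR** (medium; uses nothing). Functions with the same moments on the cells have the same antiderivatives at the grid.
Proof. For `k ≤ 0` all integrals are `0` (`BM` functions vanish for `t < 0`). Induction `k → k+1` for `k ≥ 0` (`Int.le_induction`): `∫_0^((k+1)/2^s) = ∫_0^(k/2^s) + ∫_cell`, for `f` and for `t f(t)`; `A2 f x = x ∫_0^x f - ∫_0^x t f(t) dt`. Total integrals: `∫ f = ∫_0^1 f = ∫_0^(2^s/2^s) f` (`f` vanishes outside `[0,1]`). -/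
def yGR_stmt : Prop := ∀ (s : ℕ) (f g : ℝ → ℝ), BM f → BM g →
  (∀ k : ℤ, ((∫ t in cell s k, f t) = ∫ t in cell s k, g t) ∧ (∫ t in cell s k, t * f t) = ∫ t in cell s k, t * g t) →
  (∀ k : ℤ, (∫ t in (0 : ℝ)..((k : ℝ) / 2 ^ s), f t) = (∫ t in (0 : ℝ)..((k : ℝ) / 2 ^ s), g t) ∧ A2 f ((k : ℝ) / 2 ^ s) = A2 g ((k : ℝ) / 2 ^ s)) ∧
  (∫ t, f t) = (∫ t, g t) ∧ (∫ t, t * f t) = ∫ t, t * g t

/-- **yTL** (medium; uses yCAL, yEM, yGR). One level.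
Proof. `g t = w (ci s t) * D t` is `BM`: measurable (`w ∘ ci s` is measurable: every function on `ℤ` is, and `ci s` is measurable), bounded by `W b` (where `D t ≠ 0` the weight is at most `W`). On the cell `k` the factor is constant, so both moments of `g` vanish (yEM); yGR with `0` gives
`∫_0^(k/2^s) g = 0 = A2 g (k/2^s)`. For `x` in the cell `k`, `x0 = k/2^s`, use (4), (5) of yCAL: `|∫_0^x g| ≤ W b |x-x0| ≤ W b/2^s`, `|A2 g x| ≤ W b (x-x0)^2`. If `D = 0` on the cell of `x`, use the constant `0` for `C`. -/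
def yTL_stmt : Prop := ∀ (s : ℕ) (D : ℝ → ℝ) (w : ℤ → ℝ) (b W : ℝ), BM D → (∀ x, Es s D x = 0) → (∀ x, |D x| ≤ b) → 0 ≤ W →
  (∀ k : ℤ, (∃ x ∈ cell s k, D x ≠ 0) → |w k| ≤ W) →
  BM (fun t => w (ci s t) * D t) ∧ ∀ x, |∫ t in (0 : ℝ)..x, w (ci s t) * D t| ≤ W * b / 2 ^ s ∧ |A2 (fun t => w (ci s t) * D t) x| ≤ W * b / 4 ^ s ∧
    ((∀ t ∈ cell s (ci s x), D t = 0) → (∫ t in (0 : ℝ)..x, w (ci s t) * D t) = 0 ∧ A2 (fun t => w (ci s t) * D t) x = 0)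

/-- **yE0** (medium; uses LBM, LEB, yCAL, yEM, yGR). The mean part `Es s0 y`.
Proof. yGR for `f = Es s0 y`, `g = y` (yEM): the antiderivatives agree at `x0 = (ci s0 x)/2^s0`. `|Es s0 y| ≤ 4` (LEB), so by (4), (5) of yCAL `|∫_0^x Es| ≤ |∫_0^x0 y| + 4/2^s0 ≤ 5/2^s0`, `|A2 Es x| ≤ |A2 y x0| + 2^-s0 |∫_0^x0 y| + 4/4^s0 ≤ 6/4^s0` (`2^(2 s0) = 4^s0`).
If `x < p - 2/2^s0`: `Es s0 y = 0` on `(-∞, p - 1/2^s0)` (LEB) so everything vanishes (constant `C = 0` in (4), (5), with `x0 ↦ 0`; or for `x ≤ 0` directly). If `x > p' + 2/2^s0` then `x0 ≥ p' + 1/2^s0`, `y = 0` on `[x0,∞)`, `Es s0 y = 0` on `[x0,x]`; `∫_0^x0 y = ∫ y = 0`,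
`A2 y x0 = x0 ∫_0^x0 y - ∫_0^x0 t y = 0`. -/
def yE0_stmt : Prop := ∀ (N s0 : ℕ) (p p' : ℝ) (y : ℝ → ℝ), 10 ≤ s0 → YH N s0 p p' y →
  BM y ∧ BM (Es s0 y) ∧ ∀ x, |∫ t in (0 : ℝ)..x, Es s0 y t| ≤ 5 / 2 ^ s0 ∧ |A2 (Es s0 y) x| ≤ 6 / 4 ^ s0 ∧
    (x ∉ Set.Icc (p - 2 / 2 ^ s0) (p' + 2 / 2 ^ s0) → (∫ t in (0 : ℝ)..x, Es s0 y t) = 0 ∧ A2 (Es s0 y) x = 0)

/-- **yVF** (medium; uses LBM, LEA, LEB, yCAL, yTL, yE0). The antiderivatives of `vf`.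
Proof. `vf = Es s0 y / q + Σ_(s0 ≤ s < S) w s (ci s x) * D_s`, `D_s = Ds s y`: `BM`, `|D_s| ≤ 8` (LEB), `Es s D_s = Es s (Es (s+1) y) - Es s (Es s y) = 0` (LEA, linearity and tower). yTL with `b = 8`, `W = 2/q`; yE0 times `1/q`. Sums: `Σ_(s ≥ s0) 2^-s ≤ 2·2^-s0`, `Σ_(s ≥ S) 4^-s ≤ (4/3) 4^-S ≤ 2·4^-S`.
`(5 + 32)/(q 2^s0)`, `(6 + 32)/(q 4^s0)`. Support: for `x ∉ [p - 2/2^s0, p' + 2/2^s0]` and `s ≥ s0` the cell of level `s` of `x` is outside `[p - 1/2^s0, p' + 1/2^s0]`, where `D_s = 0` (LEB: `Es s y`, `Es (s+1) y` vanish outside `[p - 2^-s, p' + 2^-s]`), last line of yTL, yE0. `vf` itself: `Es`, `Ds` vanish outside `[p - 1/2^s0, p' + 1/2^s0]`.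
Difference: `vf S' w' - vf S w = Σ_(S ≤ s < S') w' s (ci s x) * D_s` (the terms `s < S` agree). -/
def yVF_stmt : Prop := ∀ (q s0 S N : ℕ) (p p' B : ℝ) (y : ℝ → ℝ) (w : ℕ → ℤ → ℝ), 1 ≤ q → 10 ≤ s0 → s0 ≤ S → S ≤ N → YH N s0 p p' y → WH q s0 S B w y →
  (BM (vf q s0 S w y) ∧ (∀ x, x ∉ Set.Icc (p - 1 / 2 ^ s0) (p' + 1 / 2 ^ s0) → vf q s0 S w y x = 0) ∧
    ∀ x, |∫ t in (0 : ℝ)..x, vf q s0 S w y t| ≤ 37 / (q * 2 ^ s0) ∧ |A2 (vf q s0 S w y) x| ≤ 38 / (q * 4 ^ s0) ∧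
    (x ∉ Set.Icc (p - 2 / 2 ^ s0) (p' + 2 / 2 ^ s0) → (∫ t in (0 : ℝ)..x, vf q s0 S w y t) = 0 ∧ A2 (vf q s0 S w y) x = 0)) ∧
  ∀ (S' : ℕ) (w' : ℕ → ℤ → ℝ), S ≤ S' → S' ≤ N → WH q s0 S' B w' y → (∀ s < S, w' s = w s) →
    ∀ x, |A2 (vf q s0 S' w' y) x - A2 (vf q s0 S w y) x| ≤ 32 / (q * 4 ^ S)

/-- **yMOL** (medium; uses nothing). The mollification of bounded functions.
Proof. `κ v(x - h ·)` is integrable (continuous with compact support times bounded measurable). `|mol| ≤ C ∫ κ = C`. Lipschitz: with `δ = (x'-x)/h` the translation `t ↦ t + δ` gives `mol κ h v x' = ∫ κ(t+δ) v(x - h t) dt` (`MeasureTheory.integral_add_right_eq_self`; `x' - h (t+δ) = x - h t`), so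
`|mol x' - mol x| ≤ C ∫ |κ(t+δ) - κ(t)| dt ≤ C · 4 L |δ|`: `κ` is Lipschitz with some constant `L` (`C^1`, compact support: `|κ'| ≤ L`, or `ContDiff.lipschitzWith_of_hasCompactSupport`) and the integrand vanishes unless `|t| ≤ 1` or `|t+δ| ≤ 1` (a set of measure at most `4`). Continuity from Lipschitz.
Support: `κ t ≠ 0` gives `|t| ≤ 1`, so `x - h t ∉ [a,b]`. -/
def yMOL_stmt : Prop := ∀ κ : ℝ → ℝ, KER κ → ∃ K : ℝ, 1 ≤ K ∧ ∀ (v : ℝ → ℝ) (C h : ℝ), BM v → (∀ x, |v x| ≤ C) → 0 < h →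
  Continuous (mol κ h v) ∧ (∀ x, |mol κ h v x| ≤ C) ∧ (∀ x x', |mol κ h v x - mol κ h v x'| ≤ K * C / h * |x - x'|) ∧
  ∀ a b : ℝ, (∀ x, x ∉ Set.Icc a b → v x = 0) → ∀ x, x ∉ Set.Icc (a - h) (b + h) → mol κ h v x = 0

/-- **yMOB** (medium; uses yCAL). Antiderivatives of the mollification (Fubini).
Proof. `∫_0^x ∫ κ(t) v(z - h t) dt dz = ∫ κ(t) ∫_0^x v(z - h t) dz dt` (`MeasureTheory.integral_integral_swap` or `intervalIntegral_integral_interchange`; the integrand is measurable in `(t,z)`, bounded, and zero for `|t| > 1`), `∫_0^x v(z - h t) dz = ∫_(-ht)^(x-ht) v = F(x - h t) - F(- h t)`, `F = ∫_0^· v`,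
and `F(-ht) = 0` for `|t| ≤ 1` because `v = 0` on `[-h,h]`. The same with the factor `x - z`: `∫_0^x (x-z) v(z - h t) dz = ∫_(-ht)^(x-ht) (x - h t - z) v(z) dz = A2 v (x - h t)`. -/
def yMOB_stmt : Prop := ∀ (κ : ℝ → ℝ), KER κ → ∀ (v : ℝ → ℝ) (h : ℝ), BM v → 0 < h → (∀ x ≤ h, v x = 0) → ∀ x,
  (∫ z in (0 : ℝ)..x, mol κ h v z) = (∫ t, κ t * ∫ z in (0 : ℝ)..(x - h * t), v z) ∧ A2 (mol κ h v) x = ∫ t, κ t * A2 v (x - h * t)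

/-- **yMOC** (short/medium; uses yCAL, yMOB). The mollification changes the second antiderivative by `O(h^2)`.
Proof. `A2 (mol κ h v) x - A2 v x = ∫ κ(t) (A2 v (x - ht) - A2 v x + h t F(x)) dt`, `F x = ∫_0^x v`, since `∫ κ = 1` and `∫ t κ(t) dt = 0` (`κ` even: `integral_comp_neg`-type); (5) of yCAL: the bracket is at most `C (h t)^2 ≤ C h^2` for `|t| ≤ 1`. -/
def yMOC_stmt : Prop := ∀ (κ : ℝ → ℝ), KER κ → ∀ (v : ℝ → ℝ) (C h : ℝ), BM v → (∀ x, |v x| ≤ C) → 0 < h → (∀ x ≤ h, v x = 0) → ∀ x,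
  |A2 (mol κ h v) x - A2 v x| ≤ C * h ^ 2

/-- **yGEN** (medium). This is the statement `YGEN_stmt` of `Pool.Agent.helper90.DH.SDefs`: `theorem yGEN (hCAL : yCAL_stmt) (hVF : yVF_stmt) (hMOL : yMOL_stmt) (hMOB : yMOB_stmt) (hMOC : yMOC_stmt) : YGEN_stmt`.
Proof. `v = vf q s0 S w y`, `C = B/q`, `u = A * mol κ h v`; `v = 0` for `x ≤ h` because `h ≤ 2^-10` and `p - 1/2^s0 ≥ 28/100`. `u` is continuous, so (8) of yCAL. `A2 u = A * A2 (mol κ h v)` ((6) of yCAL), yMOB and yVF: `|∫_0^x u| ≤ A ∫ κ(t) 37/(q 2^s0) dt`, `|A2 u| ≤ 38 A/(q 4^s0) ≤ 38 A B/(q 2^(2 s0))`; support: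
`κ t ≠ 0` gives `|h t| ≤ 2^-s0`, so `x - h t ∉ [p - 2/2^s0, p' + 2/2^s0]` if `x ∉ [p - 4/2^s0, p' + 4/2^s0]`. Second part: yMOC for `v` and `v'` (`h' ≤ h`) and the last line of yVF: `A (2 (B/q) h^2 + 32/(q 4^S)) ≤ K A B (1/2^(2S) + h^2)/q`. `K = 40 + K(yMOL)`. -/
def yGEN_stmt : Prop := YGEN_stmt

/-! ## The function `y` -/

/-- **yESC** (short; uses nothing). `Es s f` is near `f`.
Proof. `∫_X 1 = 2^-s`, `∫_X (t-m) dt = 0` give `Es s f x - f x = 2^s ∫_X (f(t) - f(x)) dt + 12·8^s (x-m) ∫_X (t-m)(f(t) - f(x)) dt`, `|x-m|, |t-m| ≤ 2^-s/2`, so at most `η (1 + 3)`. -/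
def yESC_stmt : Prop := ∀ (s : ℕ) (f : ℝ → ℝ) (η : ℝ), BM f → ∀ x, (∀ t ∈ cell s (ci s x), |f t - f x| ≤ η) → |Es s f x - f x| ≤ 4 * η

/-- **yZF** (medium; uses nothing). The function `f = d2 Z/A`, `A = 5/2^n`.
Proof. `Z ∈ C^2`, so `deriv Z`, `d2 Z` are continuous, they vanish outside `[p,p']` (open complement; at the end points by continuity is not needed) and `Z'(0) = Z(0) = 0 = Z'(x) = Z(x)` for `x ≤ 0` or `x ≥ 1`. Fundamental theorem: `∫_a^b f = (Z' b - Z' a)/A`; `(t Z' - Z)' = t Z''`, so `∫_a^b t f = (b Z' b - Z b - a Z' a + Z a)/A`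
and `∫_0^x f = Z' x/A`, `A2 f x = Z x/A`, `∫ f = ∫_0^1 f = 0`, `∫ t f = 0`. `Es s f x` on the cell `[a,b)`, centre `m`: `|2^s ∫ f| ≤ 2^s · 2 D1/A`, `∫_X (t-m) f = ((b-m) Z' b - (a-m) Z' a - Z b + Z a)/A`, at most `(2^-s D1 + 2 D0)/A`, times `12·8^s |x-m| ≤ 6·4^s`. Total `(8·2^s D1 + 12·4^s D0)/A`. -/
def yZF_stmt : Prop := ∀ (Z : ℝ → ℝ) (p p' A D0 D1 : ℝ), ContDiff ℝ 2 Z → (∀ x, x ∉ Set.Icc p p' → Z x = 0) → 1 / 10 ≤ p → p' ≤ 9 / 10 → 0 < A → (∀ x, |deriv Z x| ≤ D1 ∧ |Z x| ≤ D0) →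
  Continuous (fun x => d2 Z x / A) ∧ BM (fun x => d2 Z x / A) ∧ (∀ x, x ∉ Set.Icc p p' → d2 Z x / A = 0) ∧
  (∀ x, (∫ t in (0 : ℝ)..x, d2 Z t / A) = deriv Z x / A ∧ A2 (fun x => d2 Z x / A) x = Z x / A) ∧ (∫ t, d2 Z t / A) = 0 ∧ (∫ t, t * (d2 Z t / A)) = 0 ∧
  ∀ (s : ℕ) (x : ℝ), |Es s (fun x => d2 Z x / A) x| ≤ (8 * 2 ^ s * D1 + 12 * 4 ^ s * D0) / A

/-- **yIN** (medium). This is the statement `YIN_stmt` of `Pool.Agent.helper90.DH.SDefs`: `theorem yIN (hLBM : LBM_stmt) (hLEA : LEA_stmt) (hLEB : LEB_stmt) (hCAL : yCAL_stmt) (hEM : yEM_stmt) (hGR : yGR_stmt) (hESC : yESC_stmt) (hZF : yZF_stmt) : YIN_stmt`.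
Proof. `c = 12`, `n0 = 1600` (so `rn n ≥ 16`, `s0n n ≥ 256`). `A = 5/2^n`, `f = d2 Z/A`, `|f| ≤ 4/5`, `s0 = s0n n`, `D1 = 1/2^(n+s0+c)`, `D0 = 1/2^(n+2 s0+c)`. `η = 1/2^(2n + 2 s0 + 4)`. `f` is uniformly continuous (continuous with compact support), choose `N ≥ N0, s0, 10` with `|f x - f x'| ≤ η` for `|x-x'| ≤ 1/2^N`. For `N' ≥ N`,
`y = Es N' f`: yESC: `|y - f| ≤ 4η ≤ 1/2^(2n)`, so `|y| ≤ 4/5 + 1/2^(2n) ≤ 1`; `PA N' y`: LEA; support: LEB with `1/2^N' ≤ 1/2^s0`; moments: yGR with yEM and yZF. `|∫_0^x y - ∫_0^x f| ≤ 4η` for `x ∈ [0,1]` and for `x > 1` (`∫_0^x y = ∫ y = 0`), `x < 0`; the same for `A2` (`A2 y x = x ∫ y - ∫ t y = 0` for `x ≥ 1`).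
`|Z'/A| ≤ 2^n/5 · D1 ≤ 1/(2 · 2^s0)`, `|Z/A| ≤ 1/(2·4^s0)`. `Es s0 (Es N' f) = Es s0 f` (LEA, `s0 ≤ N'`), and by yZF it is at most `(8·2^s0 D1 + 12·4^s0 D0) 2^n/5 = 4/2^c = 4/4096 ≤ 1/1000`. Last claim: `|d2 Z x - d2 Z x'| = A |f x - f x'| ≤ A η`. -/
def yIN_stmt : Prop := YIN_stmt

end Pool.Agent.helper90.DH
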