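import Pool.Agent.helper48.DH.SpecY

set_option autoImplicit false

open Filter Topology MeasureTheory
open scoped commutatorElement

namespace Pool.Agent.helper90.DH

open Pool.Agent.helper64.D2

lemma yGEN_int (κ : ℝ → ℝ) (hκ : KER κ) : Integrable κ := by
  obtain ⟨h1, _, _, h4, _⟩ := hκ
  exact h1.continuous.integrable_of_hasCompactSupport
    (HasCompactSupport.intro isCompact_Icc (fun x hx => h4 x hx))

lemma yGEN_avg (κ F : ℝ → ℝ) (M : ℝ) (hκ : KER κ) (hF : ∀ t ∈ Set.Icc (-1 : ℝ) 1, |F t| ≤ M) :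
    |∫ t, κ t * F t| ≤ M := by
  have hi := yGEN_int κ hκ
  obtain ⟨h1, h2, h3, h4, h5⟩ := hκ
  have := norm_integral_le_of_norm_le (f := fun t => κ t * F t) (g := fun t => κ t * M) (hi.mul_const M)
    (Filter.Eventually.of_forall (fun t => by
      by_cases ht : t ∈ Set.Icc (-1 : ℝ) 1
      · rw [Real.norm_eq_abs, abs_mul, abs_of_nonneg (h2 t)]
        exact mul_le_mul_of_nonneg_left (hF t ht) (h2 t)
      · simp [h4 t ht]))
  rw [integral_mul_const, h5, one_mul, Real.norm_eq_abs] at this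
  exact this

lemma yGEN_zero (κ F : ℝ → ℝ) (hκ : KER κ) (hF : ∀ t ∈ Set.Icc (-1 : ℝ) 1, F t = 0) :
    (∫ t, κ t * F t) = 0 := by
  obtain ⟨h1, h2, h3, h4, h5⟩ := hκ
  have : (fun t => κ t * F t) = fun _ => (0 : ℝ) := by
    funext t
    by_cases ht : t ∈ Set.Icc (-1 : ℝ) 1
    · rw [hF t ht, mul_zero]
    · rw [h4 t ht, zero_mul]
  rw [this, integral_zero]

theorem yGEN (hCAL : yCAL_stmt) (hVF : yVF_stmt) (hMOL : yMOL_stmt) (hMOB : yMOB_stmt) (hMOC : yMOC_stmt) :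
    YGEN_stmt := by
  intro κ hκ
  obtain ⟨K0, hK0, hM⟩ := hMOL κ hκ
  obtain ⟨hC1, hC2, hC3, hC4, hC5, hC6⟩ := hCAL
  refine ⟨K0 + 40, by linarith, ?_⟩
  intro q s0 S N p p' A B h y w hq hs0 hS hN hY hW hA hA1 hB hh hhs
  have hq' : (0 : ℝ) < q := by exact_mod_cast hq
  have h2 : (1024 : ℝ) ≤ 2 ^ s0 := by
    calc (1024 : ℝ) = 2 ^ 10 := by norm_num
      _ ≤ 2 ^ s0 := pow_le_pow_right₀ (by norm_num) hs0
  have h2pos : (0 : ℝ) < 2 ^ s0 := by linarith
  have h2i : 1 / (2 : ℝ) ^ s0 ≤ 1 / 1024 := one_div_le_one_div_of_le (by norm_num) h2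
  have h4 : (4 : ℝ) ^ s0 = 2 ^ (2 * s0) := by rw [pow_mul]; norm_num
  have h4S : (4 : ℝ) ^ S = 2 ^ (2 * S) := by rw [pow_mul]; norm_num
  have hY' := hY
  obtain ⟨hPA, h29, hpp', h7, hsupp, hbd, hm0, hm1, hant⟩ := hY'
  obtain ⟨⟨hv1, hv2, hv3⟩, hv4⟩ := hVF q s0 S N p p' B y w hq hs0 hS hN hY hW
  set v : ℝ → ℝ := vf q s0 S w y with hv
  have hvC : ∀ x, |v x| ≤ B / q := hW.2
  have hv0 : ∀ x ≤ h, v x = 0 := by
    intro x hx
    apply hv2
    intro hx'
    have := hx'.1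
    linarith
  obtain ⟨hm1', hm2', hm3', hm4'⟩ := hM v (B / q) h hv1 hvC hh
  have hI : ∀ x, |∫ z in (0 : ℝ)..x, mol κ h v z| ≤ 37 / (q * 2 ^ s0) := by
    intro x
    rw [(hMOB κ hκ v h hv1 hh hv0 x).1]
    exact yGEN_avg κ _ _ hκ (fun t _ => (hv3 (x - h * t)).1)
  have hJ : ∀ x, |A2 (mol κ h v) x| ≤ 38 / (q * 4 ^ s0) := by
    intro x
    rw [(hMOB κ hκ v h hv1 hh hv0 x).2]
    exact yGEN_avg κ _ _ hκ (fun t _ => (hv3 (x - h * t)).2.1)
  have hcu : Continuous (fun x => A * mol κ h v x) := continuous_const.mul hm1'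
  obtain ⟨hD1, hD2, hD3⟩ := hC6 _ hcu
  have hAB : 0 ≤ A * B := by positivity
  have hABA : A ≤ A * B := le_mul_of_one_le_right hA.le hB
  refine ⟨⟨hD1, ?_, ?_⟩, ?_⟩
  · intro x hx
    rw [(hC4 A (mol κ h v) x).2, (hMOB κ hκ v h hv1 hh hv0 x).2, yGEN_zero κ _ hκ, mul_zero]
    intro t ht
    refine ((hv3 (x - h * t)).2.2 ?_).2
    intro hmem
    apply hx
    have e1 : h * t ≤ h := by nlinarith [ht.2]
    have e2 : -h ≤ h * t := by nlinarith [ht.1]
    have e3 : 2 / (2 : ℝ) ^ s0 = 2 * (1 / 2 ^ s0) := by ring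
    have e4 : 4 / (2 : ℝ) ^ s0 = 4 * (1 / 2 ^ s0) := by ring
    have e5 : 0 < 1 / (2 : ℝ) ^ s0 := by positivity
    have h1 := hmem.1
    have h2 := hmem.2
    rw [e3] at h1 h2
    rw [e4]
    constructor <;> linarith
  · intro x
    refine ⟨hD3 x, ?_, ?_, ?_, ?_⟩
    · rw [abs_mul, abs_of_pos hA, mul_div_assoc]
      exact mul_le_mul_of_nonneg_left (hm2' x) hA.le
    · rw [hD2 x, (hC4 A (mol κ h v) x).1, abs_mul, abs_of_pos hA]
      calc A * |∫ z in (0 : ℝ)..x, mol κ h v z| ≤ A * (37 / (q * 2 ^ s0)) := mul_le_mul_of_nonneg_left (hI x) hA.le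
        _ = 37 * A / (q * 2 ^ s0) := by ring
        _ ≤ (K0 + 40) * A / (q * 2 ^ s0) := by
            apply div_le_div_of_nonneg_right _ (by positivity)
            nlinarith
    · rw [(hC4 A (mol κ h v) x).2, abs_mul, abs_of_pos hA, ← h4]
      calc A * |A2 (mol κ h v) x| ≤ A * (38 / (q * 4 ^ s0)) := mul_le_mul_of_nonneg_left (hJ x) hA.le
        _ = 38 * A / (q * 4 ^ s0) := by ring
        _ ≤ (K0 + 40) * A * B / (q * 4 ^ s0) := by
            apply div_le_div_of_nonneg_right _ (by positivity)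
            nlinarith
    · intro x'
      have : A * mol κ h v x - A * mol κ h v x' = A * (mol κ h v x - mol κ h v x') := by ring
      rw [this, abs_mul, abs_of_pos hA]
      calc A * |mol κ h v x - mol κ h v x'| ≤ A * (K0 * (B / q) / h * |x - x'|) :=
            mul_le_mul_of_nonneg_left (hm3' x x') hA.le
        _ = K0 * A * B / (q * h) * |x - x'| := by field_simp
        _ ≤ (K0 + 40) * A * B / (q * h) * |x - x'| := by
            apply mul_le_mul_of_nonneg_right _ (abs_nonneg _)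
            apply div_le_div_of_nonneg_right _ (by positivity)
            nlinarith
  · intro S' w' h' hSS' hS'N hW' hww' hh' hh'h x
    obtain ⟨⟨hv1', hv2', hv3'⟩, -⟩ := hVF q s0 S' N p p' B y w' hq hs0 (hS.trans hSS') hS'N hY hW'
    set v' : ℝ → ℝ := vf q s0 S' w' y with hv'
    have hvC' : ∀ x, |v' x| ≤ B / q := hW'.2
    have hv0' : ∀ x ≤ h', v' x = 0 := by
      intro x hx
      apply hv2'
      intro hx'
      have := hx'.1
      linarith
    have e1 := hMOC κ hκ v' (B / q) h' hv1' hvC' hh' hv0' x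
    have e2 := hMOC κ hκ v (B / q) h hv1 hvC hh hv0 x
    have e3 := hv4 S' w' hSS' hS'N hW' hww' x
    rw [(hC4 A (mol κ h v) x).2, (hC4 A (mol κ h' v') x).2]
    have e4 : A * A2 (mol κ h' v') x - A * A2 (mol κ h v) x = A * ((A2 (mol κ h' v') x - A2 v' x) +
      (A2 v' x - A2 v x) - (A2 (mol κ h v) x - A2 v x)) := by ring
    have e5 : h' ^ 2 ≤ h ^ 2 := pow_le_pow_left₀ hh'.le hh'h 2
    have e6 : B / q * h' ^ 2 ≤ B / q * h ^ 2 := mul_le_mul_of_nonneg_left e5 (by positivity)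
    rw [e4, abs_mul, abs_of_pos hA]
    have e7 : |(A2 (mol κ h' v') x - A2 v' x) + (A2 v' x - A2 v x) - (A2 (mol κ h v) x - A2 v x)| ≤
        2 * (B / q * h ^ 2) + 32 / (q * 4 ^ S) := by
      have := abs_add_le (A2 (mol κ h' v') x - A2 v' x) (A2 v' x - A2 v x)
      have h3 := abs_sub (A2 (mol κ h' v') x - A2 v' x + (A2 v' x - A2 v x)) (A2 (mol κ h v) x - A2 v x)
      linarith
    calc _ ≤ A * (2 * (B / q * h ^ 2) + 32 / (q * 4 ^ S)) := mul_le_mul_of_nonneg_left e7 hA.le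
      _ = (2 * A * B * h ^ 2 + 32 * A * (1 / 4 ^ S)) / q := by field_simp
      _ ≤ (K0 + 40) * A * B * (1 / 2 ^ (2 * S) + h ^ 2) / q := by
          apply div_le_div_of_nonneg_right _ hq'.le
          rw [← h4S]
          have f1 : 0 ≤ 1 / (4 : ℝ) ^ S := by positivity
          have f2 : 0 ≤ h ^ 2 := by positivity
          have f3 : 32 * A * (1 / 4 ^ S) ≤ (K0 + 40) * (A * B) * (1 / 4 ^ S) := by
            apply mul_le_mul_of_nonneg_right _ f1
            nlinarith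
          have f4 : 2 * A * B * h ^ 2 ≤ (K0 + 40) * (A * B) * h ^ 2 := by
            apply mul_le_mul_of_nonneg_right _ f2
            nlinarith
          nlinarith

end Pool.Agent.helper90.DH
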